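import Mathlib

/-!
# The minimum cost of fast contract-signing protocols is `4 N - 6`
-/

set_option autoImplicit false

namespace Pool.Agent.Results.MP_6fb3b3_lc.ContractSigning

open Finset

/-- A fast protocol for `N` parties: `P n d` is the party visited by contract `n` on day `d`;
every `P n` is a permutation of the parties and its last entry (day `N - 1`) is `n`. -/
def IsFast {N : ℕ} (P : Fin N → Fin N → Fin N) : Prop :=
  ∀ n : Fin N, Function.Bijective (P n) ∧ ∀ d : Fin N, (d : ℕ) + 1 = N → P n d = n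

/-- the set of envelopes: the triples `(d, i, j)` with `d ≤ N - 2` such that some contract is at
`i` on day `d` and at `j` on day `d + 1` -/
def envelopes {N : ℕ} (P : Fin N → Fin N → Fin N) : Set (ℕ × Fin N × Fin N) :=
  {t | ∃ (h : t.1 + 1 < N) (n : Fin N),
    P n ⟨t.1, lt_trans (Nat.lt_succ_self _) h⟩ = t.2.1 ∧ P n ⟨t.1 + 1, h⟩ = t.2.2}

/-- the cost of a protocol: the number of envelopes -/
noncomputable def cost {N : ℕ} (P : Fin N → Fin N → Fin N) : ℕ := (envelopes P).ncard

/-- the minimum cost of a fast protocol -/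
noncomputable def CFP (N : ℕ) : ℕ := sInf {c | ∃ P : Fin N → Fin N → Fin N, IsFast P ∧ cost P = c}

/-! ### Lower bound -/

section Lower

variable {k : ℕ} (p : Fin (k + 3) → ℕ → Fin (k + 3))

/-- indicator of the edges used by contract `n` before day `j` -/
def ind (n : Fin (k + 3)) (j : ℕ) (e : ℕ × Fin (k + 3) × Fin (k + 3)) : ℚ :=
  if e.1 < j ∧ e.2.1 = p n e.1 ∧ e.2.2 = p n (e.1 + 1) then 1 else 0

theorem sum_ind (S : Finset (ℕ × Fin (k + 3) × Fin (k + 3)))
    (hS : ∀ n, ∀ d < k + 1, (d, p n d, p n (d + 1)) ∈ S) (n : Fin (k + 3)) (j : ℕ)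
    (hj : j ≤ k + 1) (F : ℕ × Fin (k + 3) × Fin (k + 3) → ℚ) :
    ∑ e : S, F e * ind p n j e = ∑ d ∈ range j, F (d, p n d, p n (d + 1)) := by
  rw [Finset.sum_coe_sort S (fun e => F e * ind p n j e)]
  have h1 : ∀ e ∈ S, F e * ind p n j e
      = if e.1 < j ∧ e.2.1 = p n e.1 ∧ e.2.2 = p n (e.1 + 1) then F e else 0 := by
    intro e _
    unfold ind
    split_ifs <;> simp
  rw [Finset.sum_congr rfl h1, ← Finset.sum_filter]
  have h2 : S.filter (fun e => e.1 < j ∧ e.2.1 = p n e.1 ∧ e.2.2 = p n (e.1 + 1))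
      = (range j).image (fun d => (d, p n d, p n (d + 1))) := by
    ext ⟨d, a, b⟩
    simp only [mem_filter, mem_image, mem_range, Prod.mk.injEq]
    constructor
    · rintro ⟨_, h1, h2, h3⟩
      exact ⟨d, h1, rfl, h2.symm, h3.symm⟩
    · rintro ⟨d', h1, rfl, rfl, rfl⟩
      exact ⟨hS n d' (by omega), h1, rfl, rfl⟩
  rw [h2, Finset.sum_image]
  intro a _ b _ hab
  exact (Prod.mk.inj hab).1

/-- the active pairs (day, party) on the interior days `1, ..., k` -/
abbrev Node : Type := {x : Fin k × Fin (k + 3) // ∃ n, p n (x.1 + 1) = x.2}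

/-- the conservation matrix -/
def M (S : Finset (ℕ × Fin (k + 3) × Fin (k + 3))) : Matrix (Node p) S ℚ := fun v e =>
  (if e.1.1 = (v.1.1 : ℕ) ∧ e.1.2.2 = v.1.2 then 1 else 0)
    - (if e.1.1 = (v.1.1 : ℕ) + 1 ∧ e.1.2.1 = v.1.2 then 1 else 0)

/-- the visiting matrix -/
def W (S : Finset (ℕ × Fin (k + 3) × Fin (k + 3))) : Matrix (Fin (k + 3)) S ℚ := fun i e =>
  (if e.1.2.1 = i then 1 else 0) + (if e.1.1 = k ∧ e.1.2.2 = i then 1 else 0)

theorem sum_range_ite (j a : ℕ) (Q : ℕ → Prop) [DecidablePred Q] :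
    ∑ d ∈ range j, (if d = a ∧ Q d then (1 : ℚ) else 0) = if a < j ∧ Q a then 1 else 0 := by
  have h1 : ∀ d ∈ range j, (if d = a ∧ Q d then (1 : ℚ) else 0)
      = if d = a then (if Q a then 1 else 0) else 0 := by
    intro d _
    by_cases h : d = a
    · subst h; simp
    · simp [h]
  rw [Finset.sum_congr rfl h1, Finset.sum_ite_eq' (range j) a]
  by_cases h2 : a < j <;> by_cases h3 : Q a <;> simp [h2, h3]

theorem M_ind (S : Finset (ℕ × Fin (k + 3) × Fin (k + 3)))
    (hS : ∀ n, ∀ d < k + 1, (d, p n d, p n (d + 1)) ∈ S) (n : Fin (k + 3)) (j : ℕ)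
    (hj : j ≤ k + 1) (v : Node p) :
    (M p S).mulVecLin (fun e : S => ind p n j e) v
      = (if (v.1.1 : ℕ) < j ∧ p n (v.1.1 + 1) = v.1.2 then 1 else 0)
        - (if (v.1.1 : ℕ) + 1 < j ∧ p n (v.1.1 + 1) = v.1.2 then 1 else 0) := by
  rw [Matrix.mulVecLin_apply]
  unfold Matrix.mulVec dotProduct
  have h := sum_ind p S hS n j hj (fun e =>
    (if e.1 = (v.1.1 : ℕ) ∧ e.2.2 = v.1.2 then (1 : ℚ) else 0)
    - (if e.1 = (v.1.1 : ℕ) + 1 ∧ e.2.1 = v.1.2 then 1 else 0))
  refine h.trans ?_
  simp only [Finset.sum_sub_distrib]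
  rw [sum_range_ite j (v.1.1 : ℕ) (fun d => p n (d + 1) = v.1.2),
    sum_range_ite j ((v.1.1 : ℕ) + 1) (fun d => p n d = v.1.2)]

theorem card_lower (hinj : ∀ n, ∀ a ≤ k + 2, ∀ b ≤ k + 2, p n a = p n b → a = b)
    (hlast : ∀ n, p n (k + 2) = n) (S : Finset (ℕ × Fin (k + 3) × Fin (k + 3)))
    (hS : ∀ n, ∀ d < k + 1, (d, p n d, p n (d + 1)) ∈ S) : 3 * k + 3 ≤ S.card := by
  classical
  -- the number of interior nodes
  have hV : 2 * k ≤ Fintype.card (Node p) := by
    have h1 : ∀ d : Fin k, ∃ n1 n2, p n1 (d + 1) ≠ p n2 (d + 1) := by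
      intro d
      by_contra hcon
      push Not at hcon
      set x := p 0 (d + 1)
      have h2 : p x (d + 1) = p x (k + 2) := by
        rw [hlast]; exact hcon x 0
      have h3 := hinj x (d + 1) (by have := d.2; omega) (k + 2) le_rfl h2
      have := d.2
      omega
    choose n1 n2 hn using h1
    let F : Fin k × Bool → Node p := fun x =>
      ⟨(x.1, if x.2 then p (n1 x.1) (x.1 + 1) else p (n2 x.1) (x.1 + 1)), by
        by_cases h : x.2 = true
        · exact ⟨n1 x.1, by simp [h]⟩
        · exact ⟨n2 x.1, by simp [h]⟩⟩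
    have hF : Function.Injective F := by
      rintro ⟨a, x⟩ ⟨b, y⟩ h
      have h2 := congrArg Subtype.val h
      simp only [F, Prod.mk.injEq] at h2
      obtain ⟨rfl, h3⟩ := h2
      cases x <;> cases y
      · rfl
      · simp only [if_false, if_true, Bool.false_eq_true] at h3
        exact absurd h3.symm (hn a)
      · simp only [if_false, if_true, Bool.false_eq_true] at h3
        exact absurd h3 (hn a)
      · rfl
    have := Fintype.card_le_of_injective F hF
    simpa [Fintype.card_prod, mul_comm] using this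
  -- surjectivity of the conservation map
  have hsurj : Function.Surjective (M p S).mulVecLin := by
    have h1 : ∀ v : Node p, ∃ f : S → ℚ, (M p S).mulVecLin f = Pi.single v 1 := by
      rintro ⟨⟨d, i⟩, n, hn⟩
      refine ⟨fun e => ind p n (d + 1) e, ?_⟩
      ext u
      rw [M_ind p S hS n (d + 1) (by have := d.2; omega) u]
      simp only at hn
      by_cases hu : u.1.1 = d
      · by_cases hi : u.1.2 = i
        · have : u = ⟨(d, i), n, hn⟩ := Subtype.ext (Prod.ext hu hi)
          subst this
          simp [hn]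
        · have h2 : u ≠ ⟨(d, i), n, hn⟩ := fun h => hi (by rw [h])
          rw [Pi.single_eq_of_ne h2]
          have h3 : ¬ p n ((u.1.1 : ℕ) + 1) = u.1.2 := by
            rw [hu, hn]; exact fun h => hi h.symm
          simp [h3]
      · have h2 : u ≠ ⟨(d, i), n, hn⟩ := fun h => hu (by rw [h])
        rw [Pi.single_eq_of_ne h2]
        have h3 : (u.1.1 : ℕ) ≠ d := fun h => hu (Fin.ext h)
        have h4 : ((u.1.1 : ℕ) < d + 1) ↔ ((u.1.1 : ℕ) + 1 < d + 1) := by omega
        by_cases h5 : (u.1.1 : ℕ) + 1 < d + 1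
        · simp only [h4.2 h5, h5, true_and, sub_self]
        · have h6 : ¬ (u.1.1 : ℕ) < d + 1 := fun h => h5 (h4.1 h)
          simp only [h6, h5, false_and, if_false, sub_self]
    choose f hf using h1
    intro w
    refine ⟨∑ v, w v • f v, ?_⟩
    rw [map_sum]
    simp only [map_smul, hf]
    ext u
    simp [Finset.sum_apply, Pi.single_apply]
  -- the kernel
  have hker : ∀ n, (fun e : S => ind p n (k + 1) e) ∈ LinearMap.ker (M p S).mulVecLin := by
    intro n
    rw [LinearMap.mem_ker]
    ext v
    rw [M_ind p S hS n (k + 1) le_rfl v]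
    have h1 : (v.1.1 : ℕ) < k + 1 := by have := v.1.1.2; omega
    have h2 : (v.1.1 : ℕ) + 1 < k + 1 := by have := v.1.1.2; omega
    simp only [h1, h2, true_and, sub_self, Pi.zero_apply]
  have hvis : ∀ n i, (W S).mulVecLin (fun e : S => ind p n (k + 1) e) i
      = 1 - (if n = i then 1 else 0) := by
    intro n i
    rw [Matrix.mulVecLin_apply]
    unfold Matrix.mulVec dotProduct
    have h := sum_ind p S hS n (k + 1) le_rfl (fun e =>
      (if e.2.1 = i then (1 : ℚ) else 0) + (if e.1 = k ∧ e.2.2 = i then 1 else 0))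
    refine h.trans ?_
    simp only [Finset.sum_add_distrib]
    rw [sum_range_ite (k + 1) k (fun d => p n (d + 1) = i)]
    have h1 : ∑ d ∈ range (k + 3), (if p n d = i then (1 : ℚ) else 0) = 1 := by
      rw [Finset.sum_range]
      have hb : Function.Bijective (fun d : Fin (k + 3) => p n d) := by
        rw [← Finite.injective_iff_bijective]
        intro a b hab
        exact Fin.ext (hinj n a (by have := a.2; omega) b (by have := b.2; omega) hab)
      have h2 := hb.sum_comp (fun x => if x = i then (1 : ℚ) else 0)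
      rw [h2]
      simp
    rw [Finset.sum_range_succ, Finset.sum_range_succ, hlast] at h1
    have h2 : (if k < k + 1 ∧ p n (k + 1) = i then (1 : ℚ) else 0)
        = if p n (k + 1) = i then 1 else 0 := by simp
    rw [h2]
    linarith
  have hli : LinearIndependent ℚ (fun n : Fin (k + 3) => (fun e : S => ind p n (k + 1) e)) := by
    refine LinearIndependent.of_comp (W S).mulVecLin ?_
    rw [Fintype.linearIndependent_iff]
    intro c hc
    have h1 : ∀ i, ∑ n, c n - c i = 0 := by
      intro i
      have h2 := congrFun hc i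
      simp only [Function.comp, Finset.sum_apply, Pi.smul_apply, smul_eq_mul, Pi.zero_apply] at h2
      simp only [hvis] at h2
      simp only [mul_sub, mul_one, Finset.sum_sub_distrib, mul_ite, mul_zero,
        Finset.sum_ite_eq', Finset.mem_univ, if_true] at h2
      exact h2
    have h2 : ∑ n, c n = 0 := by
      have h3 : ∀ i, c i = ∑ n, c n := fun i => by linarith [h1 i]
      have h4 : ∑ n, c n = (k + 3 : ℕ) * ∑ n, c n := by
        calc ∑ n, c n = ∑ _n : Fin (k + 3), ∑ m, c m := Finset.sum_congr rfl fun i _ => h3 i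
          _ = (k + 3 : ℕ) * ∑ n, c n := by simp
      have h5 : ((k : ℚ) + 2) * ∑ n, c n = 0 := by
        push_cast at h4
        linarith
      rcases mul_eq_zero.1 h5 with h | h
      · have : (0 : ℚ) ≤ k := Nat.cast_nonneg k
        linarith
      · exact h
    intro i
    linarith [h1 i]
  let fK : Fin (k + 3) → LinearMap.ker (M p S).mulVecLin := fun n => ⟨_, hker n⟩
  have hK : LinearIndependent ℚ fK :=
    LinearIndependent.of_comp (LinearMap.ker (M p S).mulVecLin).subtype hli
  have h1 := hK.fintype_card_le_finrank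
  have h2 := LinearMap.finrank_range_add_finrank_ker (M p S).mulVecLin
  rw [LinearMap.range_eq_top.2 hsurj, finrank_top, Module.finrank_fintype_fun_eq_card,
    Module.finrank_fintype_fun_eq_card, Fintype.card_coe] at h2
  rw [Fintype.card_fin] at h1
  omega

end Lower

theorem lower (m : ℕ) (P : Fin (m + 2) → Fin (m + 2) → Fin (m + 2)) (hP : IsFast P) :
    4 * m + 2 ≤ cost P := by
  classical
  let p : Fin (m + 2) → ℕ → Fin (m + 2) := fun n d => if h : d < m + 2 then P n ⟨d, h⟩ else n
  have hp : ∀ n (d : ℕ) (h : d < m + 2), p n d = P n ⟨d, h⟩ := fun n d h => by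
    simp only [p]; rw [dif_pos h]
  have hinj : ∀ n, ∀ a ≤ m + 1, ∀ b ≤ m + 1, p n a = p n b → a = b := by
    intro n a ha b hb hab
    rw [hp n a (by omega), hp n b (by omega)] at hab
    have := (hP n).1.1 hab
    simpa using this
  have hlast : ∀ n, p n (m + 1) = n := by
    intro n
    rw [hp n (m + 1) (by omega)]
    exact (hP n).2 _ rfl
  have hfin : (envelopes P).Finite := by
    refine ((Set.finite_lt_nat (m + 2)).prod (Set.finite_univ (α := Fin (m + 2) × Fin (m + 2)))).subset
      ?_
    rintro ⟨d, a⟩ ⟨h, _⟩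
    exact ⟨by simp only [Set.mem_ofPred_eq]; omega, trivial⟩
  have hmem : ∀ n, ∀ d ≤ m, (d, p n d, p n (d + 1)) ∈ hfin.toFinset := by
    intro n d hd
    rw [Set.Finite.mem_toFinset]
    refine ⟨by show d + 1 < m + 2; omega, n, ?_, ?_⟩
    · rw [hp n d (by omega)]
    · rw [hp n (d + 1) (by omega)]
  have hcost : cost P = hfin.toFinset.card := by
    unfold cost
    rw [Set.ncard_eq_toFinset_card _ hfin]
  rw [hcost]
  set T := hfin.toFinset with hT
  have h1 : (T.filter (fun e => e.1 < m)).card + (T.filter (fun e => e.1 = m)).card ≤ T.card := by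
    rw [← Finset.card_union_of_disjoint]
    · exact Finset.card_le_card (Finset.union_subset (Finset.filter_subset _ _)
        (Finset.filter_subset _ _))
    · rw [Finset.disjoint_left]
      intro e he he'
      rw [Finset.mem_filter] at he he'
      omega
  have h2 : m + 2 ≤ (T.filter (fun e => e.1 = m)).card := by
    have h3 : ((Finset.univ : Finset (Fin (m + 2))).image
        (fun n => (m, p n m, p n (m + 1)))) ⊆ T.filter (fun e => e.1 = m) := by
      intro e he
      rw [Finset.mem_image] at he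
      obtain ⟨n, _, rfl⟩ := he
      rw [Finset.mem_filter]
      exact ⟨hmem n m le_rfl, rfl⟩
    have h4 := Finset.card_le_card h3
    rw [Finset.card_image_of_injective] at h4
    · simpa using h4
    · intro a b hab
      have := (Prod.mk.inj (Prod.mk.inj hab).2).2
      rwa [hlast, hlast] at this
  have h5 : ∀ n, ∀ d < m, (d, p n d, p n (d + 1)) ∈ T.filter (fun e => e.1 < m) := by
    intro n d hd
    rw [Finset.mem_filter]
    exact ⟨hmem n d (by omega), hd⟩
  generalize T.filter (fun e => e.1 < m) = S at h1 h5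
  rcases m with _ | k
  · omega
  · have h3 := card_lower p hinj hlast S h5
    omega

/-! ### Upper bound -/

/-- the explicit protocol `(0, 1, ..., n - 1, n + 1, ..., N - 1, n)` -/
def chain (m : ℕ) (n d : Fin (m + 2)) : Fin (m + 2) :=
  if h : (d : ℕ) + 1 = m + 2 then n
  else if (d : ℕ) < n then d else ⟨d + 1, by have := d.2; omega⟩

theorem chain_val (m : ℕ) (n d : Fin (m + 2)) : ((chain m n d : Fin (m + 2)) : ℕ)
    = if (d : ℕ) = m + 1 then (n : ℕ) else if (d : ℕ) < n then (d : ℕ) else d + 1 := by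
  unfold chain
  split_ifs <;> first | rfl | omega

theorem chain_fast (m : ℕ) : IsFast (chain m) := by
  intro n
  refine ⟨?_, ?_⟩
  · rw [← Finite.injective_iff_bijective]
    intro a b hab
    have h := congrArg (Fin.val) hab
    rw [chain_val, chain_val] at h
    apply Fin.ext
    have := a.2
    have := b.2
    have := n.2
    split_ifs at h <;> omega
  · intro d hd
    unfold chain
    rw [dif_pos hd]

theorem chain_cost (m : ℕ) : cost (chain m) ≤ 4 * m + 2 := by
  classical
  let G : (Fin m × Fin 3) ⊕ Fin (m + 2) → ℕ × Fin (m + 2) × Fin (m + 2) := fun x =>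
    match x with
    | Sum.inl (d, i) =>
      if i = 0 then (d, ⟨d, by have := d.2; omega⟩, ⟨d + 1, by have := d.2; omega⟩)
      else if i = 1 then (d, ⟨d, by have := d.2; omega⟩, ⟨d + 2, by have := d.2; omega⟩)
      else (d, ⟨d + 1, by have := d.2; omega⟩, ⟨d + 2, by have := d.2; omega⟩)
    | Sum.inr n => (m, chain m n ⟨m, by omega⟩, n)
  have h1 : envelopes (chain m) ⊆ (Finset.univ.image G : Finset _) := by
    rintro ⟨d, a, b⟩ ⟨h, n, ha, hb⟩
    simp only at h ha hb
    rw [Finset.coe_image, Finset.coe_univ, Set.image_univ]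
    by_cases hd : d = m
    · subst hd
      refine ⟨Sum.inr n, ?_⟩
      simp only [G]
      have hb' : b = n := by
        rw [← hb]
        unfold chain
        rw [dif_pos rfl]
      rw [hb', ← ha]
    · have hdm : d < m := by omega
      have ha' := congrArg Fin.val ha
      have hb' := congrArg Fin.val hb
      rw [chain_val] at ha' hb'
      simp only at ha' hb'
      rw [if_neg (by omega)] at ha' hb'
      by_cases h1 : d + 1 < (n : ℕ)
      · refine ⟨Sum.inl (⟨d, hdm⟩, 0), ?_⟩
        simp only [G, if_true]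
        rw [if_pos (by omega)] at ha' hb'
        refine Prod.ext rfl (Prod.ext (Fin.ext ?_) (Fin.ext ?_)) <;> simp only <;> omega
      · by_cases h2 : d + 1 = (n : ℕ)
        · refine ⟨Sum.inl (⟨d, hdm⟩, 1), ?_⟩
          rw [if_pos (by omega)] at ha'
          rw [if_neg (by omega)] at hb'
          simp only [G]
          rw [if_neg (by decide), if_pos trivial]
          refine Prod.ext rfl (Prod.ext (Fin.ext ?_) (Fin.ext ?_)) <;> simp only <;> omega
        · refine ⟨Sum.inl (⟨d, hdm⟩, 2), ?_⟩
          rw [if_neg (by omega)] at ha' hb'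
          simp only [G]
          rw [if_neg (by decide), if_neg (by decide)]
          refine Prod.ext rfl (Prod.ext (Fin.ext ?_) (Fin.ext ?_)) <;> simp only <;> omega
  unfold cost
  calc (envelopes (chain m)).ncard ≤ ((Finset.univ.image G : Finset _) : Set _).ncard :=
        Set.ncard_le_ncard h1 (Finset.finite_toSet _)
    _ = (Finset.univ.image G).card := Set.ncard_coe_finset _
    _ ≤ (Finset.univ : Finset ((Fin m × Fin 3) ⊕ Fin (m + 2))).card := Finset.card_image_le
    _ = 4 * m + 2 := by
        simp only [Finset.card_univ, Fintype.card_sum, Fintype.card_prod, Fintype.card_fin]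
        omega

/-- For every `N ≥ 2` the minimum cost of a fast protocol for `N` parties is `4 N - 6`. -/
theorem result (N : ℕ) (hN : 2 ≤ N) :
    IsLeast {c | ∃ P : Fin N → Fin N → Fin N, IsFast P ∧ cost P = c} (4 * N - 6) ∧
      CFP N = 4 * N - 6 := by
  obtain ⟨m, rfl⟩ : ∃ m, N = m + 2 := ⟨N - 2, by omega⟩
  have h1 : 4 * (m + 2) - 6 = 4 * m + 2 := by omega
  rw [h1]
  have h2 : IsLeast {c | ∃ P : Fin (m + 2) → Fin (m + 2) → Fin (m + 2), IsFast P ∧ cost P = c}
      (4 * m + 2) := by
    refine ⟨⟨chain m, chain_fast m, ?_⟩, ?_⟩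
    · exact le_antisymm (chain_cost m) (lower m _ (chain_fast m))
    · rintro c ⟨P, hP, rfl⟩
      exact lower m P hP
  exact ⟨h2, h2.csInf_eq⟩

end Pool.Agent.Results.MP_6fb3b3_lc.ContractSigning
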